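import Pool.Agent.Helper81.SP.A05

/-! (A03) the Cohen poset is ccc -/

open Cardinal Set
open scoped Pointwise

namespace Pool.Agent.Helper46.SP

namespace A03

open MeasureTheory

/-- the fair coin -/
noncomputable def coin : Measure Bool := (PMF.uniformOfFintype Bool).toMeasure

instance : IsProbabilityMeasure coin := by unfold coin; infer_instance

theorem coin_pos (b : Bool) : coin {b} ≠ 0 := by
  unfold coin
  rw [PMF.toMeasure_apply_singleton _ _ (MeasurableSet.singleton b)]
  simp

/-- the set of all functions which extend `p` -/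
def cyl {Q : Par} (p : P0 Q) : Set (Q.Ω × ℕ → Bool) :=
  Set.pi (p.fin.toFinset : Set (Q.Ω × ℕ)) (fun x => {b | p.val x = some b})

theorem cyl_meas {Q : Par} (p : P0 Q) : MeasurableSet (cyl p) :=
  MeasurableSet.pi (Finset.countable_toSet _) (fun _ _ => MeasurableSet.of_discrete)

theorem cyl_pos {Q : Par} (p : P0 Q) :
    0 < Measure.infinitePi (fun _ : Q.Ω × ℕ => coin) (cyl p) := by
  unfold cyl
  rw [Measure.infinitePi_pi _ (fun _ _ => MeasurableSet.of_discrete)]
  rw [pos_iff_ne_zero, Finset.prod_ne_zero_iff]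
  intro x hx
  rw [Set.Finite.mem_toFinset] at hx
  have hx' : p.val x ≠ none := hx
  obtain ⟨b, hb⟩ := Option.ne_none_iff_exists'.1 hx'
  have : {b' : Bool | p.val x = some b'} = {b} := by
    ext b'
    simp only [Set.mem_setOf_eq, Set.mem_singleton_iff, hb, Option.some.injEq]
    exact eq_comm
  rw [this]
  exact coin_pos b

theorem cyl_disj {Q : Par} (p q : P0 Q) (h : ¬ ∃ r, r ≤ p ∧ r ≤ q) : Disjoint (cyl p) (cyl q) := by
  rw [Set.disjoint_left]
  intro f hf hf'
  apply h
  apply ((st_P0 Q).compat_iff p q).1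
  intro x b b' hb hb'
  have h1 : p.val x = some (f x) := hf x (by
    rw [Finset.mem_coe, Set.Finite.mem_toFinset]
    show p.val x ≠ none
    rw [hb]; exact Option.some_ne_none b)
  have h2 : q.val x = some (f x) := hf' x (by
    rw [Finset.mem_coe, Set.Finite.mem_toFinset]
    show q.val x ≠ none
    rw [hb']; exact Option.some_ne_none b')
  rw [h1] at hb
  rw [h2] at hb'
  rw [← Option.some.inj hb, ← Option.some.inj hb']

end A03

open A03 MeasureTheory in
theorem st_P0ccc : ST_P0ccc := by
  intro Q A hA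
  have h := Measure.countable_meas_pos_of_disjoint_iUnion
    (μ := Measure.infinitePi (fun _ : Q.Ω × ℕ => coin)) (As := fun p : A => cyl p.1)
    (fun p => cyl_meas p.1) (by
      intro p q hpq
      exact cyl_disj p.1 q.1 (hA p.1 p.2 q.1 q.2 (fun h => hpq (Subtype.ext h))))
  have h2 : {i : A | 0 < Measure.infinitePi (fun _ : Q.Ω × ℕ => coin) (cyl i.1)} = Set.univ := by
    ext p
    simp only [Set.mem_setOf_eq, Set.mem_univ, iff_true]
    exact cyl_pos p.1
  rw [h2, Set.countable_univ_iff] at h
  exact Set.countable_coe_iff.1 h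

end Pool.Agent.Helper46.SP
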