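import Pool.Agent.Helper54.SP.Stmts

set_option autoImplicit false

namespace Pool.Agent.Helper54.SP

open Finset

theorem fmem_subs (d : ℕ) : ∀ (lo n : ℕ) (f : List ℕ), f ∈ subs d lo n →
    f.length = d ∧ f.Pairwise (· < ·) ∧ (∀ i ∈ f, lo ≤ i ∧ i < n) := by
  induction d with
  | zero =>
    intro lo n f hf
    have : f = [] := by simpa [subs] using hf
    subst this
    exact ⟨rfl, List.Pairwise.nil, by simp⟩
  | succ d ih =>
    intro lo n f hf
    unfold subs at hf
    rw [List.mem_flatMap] at hf
    obtain ⟨i, hi, hf⟩ := hf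
    rw [List.mem_range] at hi
    split_ifs at hf with h
    · rw [List.mem_map] at hf
      obtain ⟨g, hg, rfl⟩ := hf
      obtain ⟨h1, h2, h3⟩ := ih (i + 1) n g hg
      refine ⟨by simp [h1], ?_, ?_⟩
      · rw [List.pairwise_cons]
        exact ⟨fun x hx => by have := (h3 x hx).1; omega, h2⟩
      · intro x hx
        rw [List.mem_cons] at hx
        rcases hx with rfl | hx
        · exact ⟨h, hi⟩
        · have := h3 x hx
          omega
    · simp at hf

theorem st_FMEM : ST_FMEM := by
  intro d n χ f hf
  unfold facets at hf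
  rw [List.mem_flatMap] at hf
  obtain ⟨g, hg, hf⟩ := hf
  split_ifs at hf with h
  · have hfg : f = g := by simpa using hf
    subst hfg
    obtain ⟨h1, h2, h3⟩ := fmem_subs d 0 n f hg
    refine ⟨h1, h2.imp (fun h => ne_of_lt h), h2, fun i hi => (h3 i hi).2, ?_⟩
    intro x y hx hy hxf hyf
    unfold oneS at h
    rw [List.all_eq_true] at h
    have h4 := h x (List.mem_range.2 hx)
    rw [List.all_eq_true] at h4
    have h5 := h4 y (List.mem_range.2 hy)
    have hx' : f.elem x = false := by
      rw [← Bool.not_eq_true, List.elem_iff]; exact hxf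
    have hy' : f.elem y = false := by
      rw [← Bool.not_eq_true, List.elem_iff]; exact hyf
    rw [hx', hy', Bool.false_or, Bool.false_or, beq_iff_eq] at h5
    exact h5
  · simp at hf

end Pool.Agent.Helper54.SP
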