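import Pool.Agent.Helper54.SP.StmtsP

set_option autoImplicit false

namespace Pool.Agent.Helper54.SP

open Finset

theorem le2_getD (l : List ℕ) (i r : ℕ) :
    (l.eraseIdx i).getD r 0 = l.getD (if r < i then r else r + 1) 0 := by
  rw [List.getD_eq_getElem?_getD, List.getD_eq_getElem?_getD, List.getElem?_eraseIdx]
  split_ifs <;> rfl

theorem st_LE2 : ST_LE2 := by
  intro k n X h l i hl hnd hlt hi hget
  unfold dt
  rw [Matrix.det_succ_row _ (⟨i, hi⟩ : Fin (k + 1))]
  rw [Finset.sum_eq_single (Fin.last k)]
  · have h1 : (Matrix.of fun i j : Fin (k + 1) => (fun i j => if i < n then (if j < k then X i j else h i)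
      else (if j = k then (1 : ℝ) else 0)) (l.getD i 0) (j : ℕ)) (⟨i, hi⟩ : Fin (k + 1)) (Fin.last k) = 1 := by
      rw [Matrix.of_apply]
      simp only [hget, lt_irrefl, if_false, Fin.val_last, if_true]
    rw [h1, Fin.val_last, mul_one]
    congr 2
    ext r c
    rw [Matrix.submatrix_apply, Matrix.of_apply, Matrix.of_apply, le2_getD, Fin.succAbove_last]
    have e1 : (((⟨i, hi⟩ : Fin (k + 1)).succAbove r : Fin (k + 1)) : ℕ) = if (r : ℕ) < i then (r : ℕ) else r + 1 := by
      unfold Fin.succAbove
      split_ifs with a1 a2 a2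
      · rfl
      · exact absurd a1 a2
      · exact absurd a2 a1
      · rfl
    rw [e1]
    have e2 : (if (r : ℕ) < i then (r : ℕ) else r + 1) < l.length := by
      have := r.2
      split_ifs <;> omega
    have e3 : (if (r : ℕ) < i then (r : ℕ) else r + 1) ≠ i := by
      split_ifs <;> omega
    obtain ⟨s, hs⟩ : ∃ s, s = (if (r : ℕ) < i then (r : ℕ) else r + 1) := ⟨_, rfl⟩
    rw [← hs] at e2 e3 ⊢
    have hil : i < l.length := by omega
    have e4 : l.getD s 0 = l[s] := by rw [List.getD_eq_getElem?_getD, List.getElem?_eq_getElem e2]; rfl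
    have e5 : l.getD i 0 = l[i] := by rw [List.getD_eq_getElem?_getD, List.getElem?_eq_getElem hil]; rfl
    have e6 : l[s] ≠ n := by
      intro h6
      apply e3
      have : l[s] = l[i] := by rw [h6, ← e5, hget]
      exact (List.Nodup.getElem_inj_iff hnd).1 this
    have e7 : l[s] < n := by
      have := hlt l[s] (List.getElem_mem _)
      omega
    rw [e4]
    simp only [e7, if_true, Fin.val_castSucc, c.2]
  · intro j _ hj
    have h1 : (Matrix.of fun i j : Fin (k + 1) => (fun i j => if i < n then (if j < k then X i j else h i)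
      else (if j = k then (1 : ℝ) else 0)) (l.getD i 0) (j : ℕ)) (⟨i, hi⟩ : Fin (k + 1)) j = 0 := by
      rw [Matrix.of_apply]
      have h2 : (j : ℕ) ≠ k := by
        intro h3
        apply hj
        apply Fin.ext
        rw [h3, Fin.val_last]
      simp only [hget, lt_irrefl, if_false, h2]
    rw [h1]
    ring
  · intro h
    exact absurd (Finset.mem_univ _) h

end Pool.Agent.Helper54.SP
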