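import Pool.Agent.Helper54.SP.Stmts

set_option autoImplicit false

namespace Pool.Agent.Helper54.SP

open Finset

theorem st_MONO : ST_MONO := by
  intro N S key R _ htr hnb
  have key2 : ∀ m : ℕ, ∀ p q, p < N → q < N → S p → S q → key p < key q → key q - key p ≤ m → R p q := by
    intro m
    induction m with
    | zero => intro p q _ _ _ _ h1 h2; omega
    | succ m ih =>
      intro p q hp hq hSp hSq h1 h2
      by_cases h : ∀ r, r < N → S r → ¬ (key p < key r ∧ key r < key q)
      · exact hnb p q ⟨hp, hq, hSp, hSq, h1, h⟩
      · push Not at h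
        obtain ⟨r, hr, hSr, h3, h4⟩ := h
        exact htr p r q hp hr hq hSp hSr hSq (ih p r hp hr hSp hSr h3 (by omega))
          (ih r q hr hq hSr hSq h4 (by omega))
  intro p q hp hq hSp hSq h
  exact key2 (key q - key p) p q hp hq hSp hSq h le_rfl

end Pool.Agent.Helper54.SP
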