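import Pool.Agent.Helper54.SP.Stmts

set_option autoImplicit false

namespace Pool.Agent.Helper54.SP

open Finset

theorem salt_12 (Γ : List Gt) (a b c : ℕ) (hab : a ≠ b) (hac : a ≠ c) (hbc : b ≠ c) :
    sg3 Γ b a c = !sg3 Γ a b c := by
  unfold sg3
  rcases lt_or_gt_of_ne hab with h1 | h1 <;> rcases lt_or_gt_of_ne hac with h2 | h2 <;>
    rcases lt_or_gt_of_ne hbc with h3 | h3
  · rw [if_neg (by omega), if_pos h3, if_pos h1, if_pos h3]
  · rw [if_neg (by omega), if_neg (by omega), if_pos h2, if_pos h1, if_neg (by omega), if_pos h2, Bool.not_not]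
  · omega
  · rw [if_neg (by omega), if_neg (by omega), if_neg (by omega), if_pos h1, if_neg (by omega), if_neg (by omega)]
  · rw [if_pos h1, if_pos h2, if_neg (by omega), if_pos h2, Bool.not_not]
  · omega
  · rw [if_pos h1, if_neg (by omega), if_pos h3, if_neg (by omega), if_neg (by omega), if_pos h3]
  · rw [if_pos h1, if_neg (by omega), if_neg (by omega), if_neg (by omega), if_neg (by omega),
      if_neg (by omega), Bool.not_not]

theorem salt_23 (Γ : List Gt) (a b c : ℕ) (hab : a ≠ b) (hac : a ≠ c) (hbc : b ≠ c) :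
    sg3 Γ a c b = !sg3 Γ a b c := by
  unfold sg3
  rcases lt_or_gt_of_ne hab with h1 | h1 <;> rcases lt_or_gt_of_ne hac with h2 | h2 <;>
    rcases lt_or_gt_of_ne hbc with h3 | h3
  · rw [if_pos h2, if_neg (by omega), if_pos h1, if_pos h1, if_pos h3]
  · rw [if_pos h2, if_pos h3, if_pos h1, if_neg (by omega), if_pos h2, Bool.not_not]
  · omega
  · rw [if_neg (by omega), if_pos h1, if_pos h1, if_neg (by omega), if_neg (by omega)]
  · rw [if_pos h2, if_neg (by omega), if_neg (by omega), if_neg (by omega), if_pos h2, Bool.not_not]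
  · omega
  · rw [if_neg (by omega), if_neg (by omega), if_neg (by omega), if_neg (by omega), if_neg (by omega),
      if_pos h3]
  · rw [if_neg (by omega), if_neg (by omega), if_pos h3, if_neg (by omega), if_neg (by omega),
      if_neg (by omega), Bool.not_not]

theorem st_SALT : ST_SALT := by
  intro Γ l₁ l₂ a b hlen hnd _
  match l₁, hlen, hnd with
  | [], hlen, hnd =>
    match l₂, hlen, hnd with
    | [c], _, hnd =>
      simp only [List.nil_append, List.nodup_cons, List.mem_cons, List.not_mem_nil, or_false, not_or] at hnd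
      exact salt_12 Γ a b c hnd.1.1 hnd.1.2 hnd.2.1
    | [], hlen, _ => simp at hlen
    | _ :: _ :: _, hlen, _ => simp at hlen
  | [c], hlen, hnd =>
    match l₂, hlen, hnd with
    | [], _, hnd =>
      simp only [List.cons_append, List.nil_append, List.nodup_cons, List.mem_cons, List.not_mem_nil, or_false,
        not_or] at hnd
      exact salt_23 Γ c a b hnd.1.1 hnd.1.2 hnd.2.1
    | _ :: _, hlen, _ => simp at hlen
  | _ :: _ :: _, hlen, _ => simp at hlen; omega

end Pool.Agent.Helper54.SP
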