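import Pool.Agent.Helper46.SP.CoreSpec

/-! (A05) facts on the Cohen poset -/

open Cardinal Set
open scoped Pointwise

namespace Pool.Agent.Helper46.SP

namespace A05

variable {Q : Par}

open Classical in
theorem res_val (p : P0 Q) (Z : Set (Idx Q)) (x : Q.Ω × ℕ) :
    (p.res Z).val x = if ((none, x.1) : Idx Q) ∈ Z then p.val x else none := rfl

theorem res_some {p : P0 Q} {Z : Set (Idx Q)} {x : Q.Ω × ℕ} {b : Bool} :
    (p.res Z).val x = some b ↔ ((none, x.1) : Idx Q) ∈ Z ∧ p.val x = some b := by
  classical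
  rw [res_val]
  by_cases h : ((none, x.1) : Idx Q) ∈ Z
  · rw [if_pos h]; exact ⟨fun h' => ⟨h, h'⟩, fun h' => h'.2⟩
  · rw [if_neg h]
    constructor
    · intro h'; cases h'
    · intro h'; exact absurd h'.1 h

theorem ext_some {p q : P0 Q} (h : ∀ x b, p.val x = some b ↔ q.val x = some b) : p = q := by
  apply P0.ext
  funext x
  exact Option.ext fun b => h x b

theorem merge_some {p q : P0 Q} {x : Q.Ω × ℕ} {b : Bool} :
    (p.merge q).val x = some b ↔ p.val x = some b ∨ (p.val x = none ∧ q.val x = some b) := by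
  show (p.val x).orElse (fun _ => q.val x) = some b ↔ _
  cases h : p.val x with
  | none => simp
  | some c => simp

theorem merge_left (p q : P0 Q) : p.merge q ≤ p := fun _ _ h => merge_some.2 (Or.inl h)

theorem merge_right {p q : P0 Q} (h : p.Compat q) : p.merge q ≤ q := by
  intro x b hb
  cases hp : p.val x with
  | none => exact merge_some.2 (Or.inr ⟨hp, hb⟩)
  | some c =>
    have := h x c b hp hb
    subst this
    exact merge_some.2 (Or.inl hp)

theorem compat_merge {p q r : P0 Q} (h1 : p.Compat q) (h2 : p.Compat r) :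
    p.Compat (q.merge r) := by
  intro x b b' hb hb'
  rcases merge_some.1 hb' with h | ⟨_, h⟩
  · exact h1 x b b' hb h
  · exact h2 x b b' hb h

theorem mem_of_res {p : P0 Q} {Z : Set (Idx Q)} (h : p.res Z = p) {x : Q.Ω × ℕ} {b : Bool}
    (hb : p.val x = some b) : ((none, x.1) : Idx Q) ∈ Z := by
  rw [← h] at hb
  exact (res_some.1 hb).1

theorem smul_some_aux {g h : Grp Q} {p : P0 Q} {Z : Set (Idx Q)} (hp : p.res Z = p)
    (hgh : ∀ i ∈ Z, g • i = h • i) (x : Q.Ω × ℕ) (b : Bool) (hb : (g • p).val x = some b) :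
    (h • p).val x = some b := by
  rw [P0.smul_val] at hb ⊢
  have h1 := mem_of_res hp hb
  have h2 := hgh _ h1
  rw [smul_idx, smul_idx] at h2
  have h3 : g none ((g none)⁻¹ x.1) = h none ((g none)⁻¹ x.1) := (Prod.ext_iff.1 h2).2
  have h4 : (h none)⁻¹ x.1 = (g none)⁻¹ x.1 := by
    rw [Equiv.Perm.inv_eq_iff_eq, ← h3]
    simp
  rw [h4]
  exact hb

end A05

open A05

theorem st_P0 : ST_P0 := by
  intro Q
  refine
  { res_le := fun p Z x b h => (res_some.1 h).2
    res_mono := ?_
    res_anti := ?_
    res_res := ?_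
    fin_supp := ?_
    res_eq_of := ?_
    merge_left := A05.merge_left
    merge_right := fun p q h => A05.merge_right h
    merge_res := ?_
    compat_iff := ?_
    compat3 := ?_
    compat_over := ?_
    smul_res := fun g p Z => RN.res_smul g p Z
    smul_congr := ?_ }
  · intro p q Z h x b hb
    have := res_some.1 hb
    exact res_some.2 ⟨this.1, h x b this.2⟩
  · intro p Z W h x b hb
    have := res_some.1 hb
    exact res_some.2 ⟨h this.1, this.2⟩
  · intro p Z W
    apply ext_some
    intro x b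
    rw [res_some, res_some, res_some]
    constructor
    · rintro ⟨h1, h2, h3⟩; exact ⟨⟨h2, h1⟩, h3⟩
    · rintro ⟨⟨h2, h1⟩, h3⟩; exact ⟨h1, h2, h3⟩
  · intro p
    refine ⟨(fun x : Q.Ω × ℕ => ((none, x.1) : Idx Q)) '' {x | p.val x ≠ none},
      p.fin.image _, ?_, ?_⟩
    · rintro ζ _ ⟨x, _, rfl⟩ ξ hξ
      cases hξ
    · apply ext_some
      intro x b
      rw [res_some]
      constructor
      · exact fun h => h.2
      · intro h
        refine ⟨⟨x, ?_, rfl⟩, h⟩
        show p.val x ≠ none
        rw [h]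
        exact Option.some_ne_none b
  · intro p Z W h hZW
    apply ext_some
    intro x b
    rw [res_some]
    exact ⟨fun h => h.2, fun h' => ⟨hZW (mem_of_res h h'), h'⟩⟩
  · intro p q Z
    apply ext_some
    intro x b
    classical
    rw [res_some, merge_some, merge_some, res_some, res_some]
    constructor
    · rintro ⟨h1, h2 | ⟨h2, h3⟩⟩
      · exact Or.inl ⟨h1, h2⟩
      · right
        refine ⟨?_, h1, h3⟩
        rw [res_val, if_pos h1]
        exact h2
    · rintro (⟨h1, h2⟩ | ⟨h1, h2, h3⟩)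
      · exact ⟨h1, Or.inl h2⟩
      · rw [res_val, if_pos h2] at h1
        exact ⟨h2, Or.inr ⟨h1, h3⟩⟩
  · intro p q
    constructor
    · intro h
      exact ⟨p.merge q, A05.merge_left p q, A05.merge_right h⟩
    · rintro ⟨r, h1, h2⟩ x b b' hb hb'
      have e1 := h1 x b hb
      have e2 := h2 x b' hb'
      rw [e1] at e2
      exact Option.some.inj e2
  · intro p q r h1 h2 h3
    refine ⟨p.merge (q.merge r), A05.merge_left _ _, ?_, ?_⟩
    · exact le_trans (A05.merge_right (compat_merge h1 h2)) (A05.merge_left _ _)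
    · exact le_trans (A05.merge_right (compat_merge h1 h2)) (A05.merge_right h3)
  · intro p q Y Y' hp hq h x b b' hb hb'
    have m1 := mem_of_res hp hb
    have m2 := mem_of_res hq hb'
    exact h x b b' (res_some.2 ⟨⟨m1, m2⟩, hb⟩) (res_some.2 ⟨⟨m1, m2⟩, hb'⟩)
  · intro g h p Z hp hgh
    apply ext_some
    intro x b
    exact ⟨smul_some_aux hp hgh x b, smul_some_aux hp (fun i hi => (hgh i hi).symm) x b⟩

end Pool.Agent.Helper46.SP
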